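import Pool.Agent.D0H42.SFK.SN
import Pool.Agent.D0H19.SM.Stm

/-!
# Project SM (helper19), module SN2K: a congruence condition over a number field which forces `S_n`, with a modulus
all of whose prime factors are larger than a given number (copy of `Pool.Agent.D0H42.SFK.t_SN` of helper42)
-/

set_option autoImplicit false

namespace Pool.Agent.D0H30.SM

open Polynomial NumberField Pool.Agent.D0H15.SK Pool.Agent.D0H42.SFK Pool.Agent.D0H19.SM

/-- a congruence condition with a modulus without small prime factors which forces the Galois group `S_n` -/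
theorem t_SN2K : S_SN2K := by
  intro K _ _ n W hn
  obtain ⟨p₁, hp1, hP1⟩ := Nat.exists_infinite_primes (n + W + 1)
  obtain ⟨p₂, hp2, hP2⟩ := Nat.exists_infinite_primes (p₁ + 1)
  obtain ⟨p₃, hp3, hP3⟩ := Nat.exists_infinite_primes (p₂ + 1)
  have f1 : Fact p₁.Prime := ⟨hP1⟩
  have f2 : Fact p₂.Prime := ⟨hP2⟩
  have f3 : Fact p₃.Prime := ⟨hP3⟩
  obtain ⟨P₁, M1, n1, q1⟩ := exists_over K p₁
  obtain ⟨P₂, M2, n2, q2⟩ := exists_over K p₂
  obtain ⟨P₃, M3, n3, q3⟩ := exists_over K p₃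
  letI I1 : Field (𝓞 K ⧸ P₁) := Ideal.Quotient.field P₁
  letI I2 : Field (𝓞 K ⧸ P₂) := Ideal.Quotient.field P₂
  letI I3 : Field (𝓞 K ⧸ P₃) := Ideal.Quotient.field P₃
  have F1 : Finite (𝓞 K ⧸ P₁) := Ring.HasFiniteQuotients.finiteQuotient n1
  have F2 : Finite (𝓞 K ⧸ P₂) := Ring.HasFiniteQuotients.finiteQuotient n2
  have F3 : Finite (𝓞 K ⧸ P₃) := Ring.HasFiniteQuotients.finiteQuotient n3
  have C1 : CharP (𝓞 K ⧸ P₁) p₁ := by
    apply (CharP.charP_iff_prime_eq_zero hP1).mpr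
    have h1 : (Ideal.Quotient.mk P₁) (p₁ : 𝓞 K) = 0 := Ideal.Quotient.eq_zero_iff_mem.mpr q1
    rwa [map_natCast] at h1
  have C2 : CharP (𝓞 K ⧸ P₂) p₂ := by
    apply (CharP.charP_iff_prime_eq_zero hP2).mpr
    have h1 : (Ideal.Quotient.mk P₂) (p₂ : 𝓞 K) = 0 := Ideal.Quotient.eq_zero_iff_mem.mpr q2
    rwa [map_natCast] at h1
  have C3 : CharP (𝓞 K ⧸ P₃) p₃ := by
    apply (CharP.charP_iff_prime_eq_zero hP3).mpr
    have h1 : (Ideal.Quotient.mk P₃) (p₃ : 𝓞 K) = 0 := Ideal.Quotient.eq_zero_iff_mem.mpr q3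
    rwa [map_natCast] at h1
  obtain ⟨g₁, m1, d1, c1, t1⟩ := exA (𝓞 K ⧸ P₁) p₁ n hn (by omega)
  obtain ⟨g₂, m2, d2, c2, t2⟩ := exB (𝓞 K ⧸ P₂) p₂ n hn (by omega)
  obtain ⟨g₃, m3, d3, c3, t3⟩ := exC (𝓞 K ⧸ P₃) p₃ n hn (by omega)
  choose a0 ha1 ha2 ha3 using fun i : Fin (n - 1) =>
    crt3 (𝓞 K) P₁ P₂ P₃ p₁ p₂ p₃ hP1 hP2 hP3 (by omega) (by omega) (by omega) q1 q2 q3
      (g₁.coeff (i : ℕ)) (g₂.coeff (i : ℕ)) (g₃.coeff (i : ℕ))
  refine ⟨p₁ * p₂ * p₃, ?_, ?_, a0, ?_⟩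
  · exact Nat.mul_pos (Nat.mul_pos hP1.pos hP2.pos) hP3.pos
  · intro p hp hd
    rcases (Nat.Prime.dvd_mul hp).1 hd with h | h
    · rcases (Nat.Prime.dvd_mul hp).1 h with h | h
      · have := (Nat.prime_dvd_prime_iff_eq hp hP1).1 h
        omega
      · have := (Nat.prime_dvd_prime_iff_eq hp hP2).1 h
        omega
    · have := (Nat.prime_dvd_prime_iff_eq hp hP3).1 h
      omega
  intro a ha
  have hcast : ∀ (P : Ideal (𝓞 K)) (p : ℕ), (p : 𝓞 K) ∈ P → p ∣ p₁ * p₂ * p₃ →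
      ∀ i, Ideal.Quotient.mk P (a i) = Ideal.Quotient.mk P (a0 i) := by
    intro P p hpP hp i
    rw [Ideal.Quotient.eq]
    obtain ⟨w, hw⟩ := ha i
    obtain ⟨v, hv⟩ := hp
    rw [hw, hv]
    push_cast
    rw [mul_assoc]
    exact Ideal.mul_mem_right _ _ hpP
  have e1 := pol_map K _ (Ideal.Quotient.mk P₁) n (by omega) g₁ m1 d1 c1 a (fun i => by
    rw [hcast P₁ p₁ q1 ⟨p₂ * p₃, by ring⟩ i, ha1])
  have e2 := pol_map K _ (Ideal.Quotient.mk P₂) n (by omega) g₂ m2 d2 c2 a (fun i => by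
    rw [hcast P₂ p₂ q2 ⟨p₁ * p₃, by ring⟩ i, ha2])
  have e3 := pol_map K _ (Ideal.Quotient.mk P₃) n (by omega) g₃ m3 d3 c3 a (fun i => by
    rw [hcast P₃ p₃ q3 ⟨p₁ * p₂, by ring⟩ i, ha3])
  have hm := pol_monic n (by omega) a
  have hirrZ : Irreducible (pol n a) :=
    hm.irreducible_of_irreducible_map (Ideal.Quotient.mk P₁) _ (by rw [e1]; exact t1)
  have hirr : Irreducible (polK n a) :=
    (hm.irreducible_iff_irreducible_map_fraction_map (K := K)).1 hirrZ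
  refine ⟨hirr, fun θ hθ => ?_⟩
  exact main_sym K (pol n a) hm hirr P₂ P₃ (n - 2) n2 n3 (by rw [e2]; exact t2)
    (by rw [e3]; exact t3) θ hθ

end Pool.Agent.D0H30.SM
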